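import Pool.Agent.Helper84.FX.StT

set_option autoImplicit false

namespace Pool.Agent.Helper78.FX

open Pool.Agent.Helper84.FX Set

private theorem closed_Cb (n : ℕ) : IsClosed (Cb n) := by
  have h : Cb n = Set.Icc (0 : Fin n → ℝ) 1 := by
    ext u
    constructor
    · intro h
      exact ⟨fun i => (h i).1, fun i => (h i).2⟩
    · intro h i
      exact ⟨h.1 i, h.2 i⟩
  rw [h]
  exact isClosed_Icc

private theorem bd_sub (n : ℕ) : Bd n ⊆ Cb n := fun _ h => h.1

open scoped Classical in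
/-- the concatenation -/
private noncomputable def cat {F : Type} {n : ℕ} (P R : ℝ × (Fin n → ℝ) → F) :
    ℝ × (Fin n → ℝ) → F :=
  fun q => if q.1 ≤ 1 / 2 then P (2 * q.1, q.2) else R (2 * q.1 - 1, q.2)

private theorem cat_lo {F : Type} {n : ℕ} (P R : ℝ × (Fin n → ℝ) → F) (s : ℝ) (u : Fin n → ℝ)
    (hs : s ≤ 1 / 2) : cat P R (s, u) = P (2 * s, u) := by
  unfold cat
  exact if_pos hs

private theorem cat_hi {F : Type} {n : ℕ} (P R : ℝ × (Fin n → ℝ) → F)
    (hPR : ∀ u ∈ Cb n, P (1, u) = R (0, u)) (s : ℝ) (u : Fin n → ℝ) (hu : u ∈ Cb n)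
    (hs : 1 / 2 ≤ s) : cat P R (s, u) = R (2 * s - 1, u) := by
  by_cases h : s ≤ 1 / 2
  · have h1 : s = 1 / 2 := le_antisymm h hs
    rw [cat_lo P R s u h, h1]
    have h2 : (2 : ℝ) * (1 / 2) = 1 := by norm_num
    rw [h2, hPR u hu]
    congr 2
    norm_num
  · unfold cat
    exact if_neg h

private theorem cat_mp {F : Type} [TopologicalSpace F] (Y : Set F) {n : ℕ}
    (P R : ℝ × (Fin n → ℝ) → F) (hP : Mp (II ×ˢ Cb n) Y P) (hR : Mp (II ×ˢ Cb n) Y R)
    (hPR : ∀ u ∈ Cb n, P (1, u) = R (0, u)) : Mp (II ×ˢ Cb n) Y (cat P R) := by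
  have hA : IsClosed ({q : ℝ × (Fin n → ℝ) | q.1 ∈ II ∧ q.2 ∈ Cb n ∧ q.1 ≤ 1 / 2}) := by
    have h1 : IsClosed {q : ℝ × (Fin n → ℝ) | q.1 ∈ II} :=
      isClosed_Icc.preimage continuous_fst
    have h2 : IsClosed {q : ℝ × (Fin n → ℝ) | q.2 ∈ Cb n} :=
      (closed_Cb n).preimage continuous_snd
    have h3 : IsClosed {q : ℝ × (Fin n → ℝ) | q.1 ≤ 1 / 2} :=
      isClosed_le continuous_fst continuous_const
    exact h1.inter (h2.inter h3)
  have hB : IsClosed ({q : ℝ × (Fin n → ℝ) | q.1 ∈ II ∧ q.2 ∈ Cb n ∧ 1 / 2 ≤ q.1}) := by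
    have h1 : IsClosed {q : ℝ × (Fin n → ℝ) | q.1 ∈ II} :=
      isClosed_Icc.preimage continuous_fst
    have h2 : IsClosed {q : ℝ × (Fin n → ℝ) | q.2 ∈ Cb n} :=
      (closed_Cb n).preimage continuous_snd
    have h3 : IsClosed {q : ℝ × (Fin n → ℝ) | 1 / 2 ≤ q.1} :=
      isClosed_le continuous_const continuous_fst
    exact h1.inter (h2.inter h3)
  have hU : II ×ˢ Cb n = {q : ℝ × (Fin n → ℝ) | q.1 ∈ II ∧ q.2 ∈ Cb n ∧ q.1 ≤ 1 / 2} ∪
      {q : ℝ × (Fin n → ℝ) | q.1 ∈ II ∧ q.2 ∈ Cb n ∧ 1 / 2 ≤ q.1} := by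
    ext q
    constructor
    · rintro ⟨h1, h2⟩
      rcases le_total q.1 (1 / 2) with h | h
      · exact Or.inl ⟨h1, h2, h⟩
      · exact Or.inr ⟨h1, h2, h⟩
    · rintro (⟨h1, h2, -⟩ | ⟨h1, h2, -⟩)
      · exact ⟨h1, h2⟩
      · exact ⟨h1, h2⟩
  constructor
  · rw [hU]
    refine ContinuousOn.union_of_isClosed ?_ ?_ hA hB
    · have h1 : ContinuousOn (fun q : ℝ × (Fin n → ℝ) => P (2 * q.1, q.2))
          {q : ℝ × (Fin n → ℝ) | q.1 ∈ II ∧ q.2 ∈ Cb n ∧ q.1 ≤ 1 / 2} := by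
        refine hP.1.comp (by fun_prop) ?_
        rintro q ⟨h1, h2, h3⟩
        exact ⟨⟨by have := h1.1; linarith, by linarith⟩, h2⟩
      refine h1.congr ?_
      rintro ⟨s, u⟩ ⟨h1, h2, h3⟩
      exact cat_lo P R s u h3
    · have h1 : ContinuousOn (fun q : ℝ × (Fin n → ℝ) => R (2 * q.1 - 1, q.2))
          {q : ℝ × (Fin n → ℝ) | q.1 ∈ II ∧ q.2 ∈ Cb n ∧ 1 / 2 ≤ q.1} := by
        refine hR.1.comp (by fun_prop) ?_
        rintro q ⟨h1, h2, h3⟩
        exact ⟨⟨by linarith, by have := h1.2; linarith⟩, h2⟩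
      refine h1.congr ?_
      rintro ⟨s, u⟩ ⟨h1, h2, h3⟩
      exact cat_hi P R hPR s u h2 h3
  · rintro ⟨s, u⟩ ⟨h1, h2⟩
    simp only at h1 h2
    rcases le_total s (1 / 2) with h | h
    · rw [cat_lo P R s u h]
      exact hP.2 ⟨⟨by have := h1.1; linarith, by linarith⟩, h2⟩
    · rw [cat_hi P R hPR s u h2 h]
      exact hR.2 ⟨⟨by linarith, by have := h1.2; linarith⟩, h2⟩

/-- **CCT**.  Concatenation of two homotopies with correction of the boundary track. -/
theorem hCCT : StBHF → StCCT := by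
  intro hBHF F _ Y n P R k hP hR hPR hPk
  have hM := cat_mp Y P R hP hR hPR
  have h0 : ∀ u ∈ Cb n, cat P R (0, u) = P (0, u) := by
    intro u _
    rw [cat_lo P R 0 u (by norm_num), mul_zero]
  have h1 : ∀ u ∈ Cb n, cat P R (1, u) = R (1, u) := by
    intro u hu
    rw [cat_hi P R hPR 1 u hu (by norm_num)]
    norm_num
  have hz : (0 : ℝ) ∈ II := ⟨le_refl _, zero_le_one⟩
  have ho : (1 : ℝ) ∈ II := ⟨zero_le_one, le_refl _⟩
  constructor
  · intro hRk
    have hmem : ∀ r ∈ II, ∀ s ∈ II, min ((2 - r) * s) 1 ∈ II := by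
      intro r hr s hs
      have hr1 := hr.2
      have hs0 := hs.1
      exact ⟨le_min (mul_nonneg (by linarith) hs0) zero_le_one, min_le_right _ _⟩
    have hQ := hBHF F Y n (cat P R) (fun q => P (min ((2 - q.1) * q.2.1) 1, q.2.2)) hM ?_ ?_ ?_
    · obtain ⟨Φ', hΦ1, hΦ2, hΦ3⟩ := hQ
      refine ⟨Φ', hΦ1, ?_, ?_, ?_⟩
      · intro u hu
        rw [(hΦ2 u hu).1, h0 u hu]
      · intro u hu
        rw [(hΦ2 u hu).2, h1 u hu]
      · intro s hs u hu
        rw [hΦ3 s hs u hu]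
        have : min ((2 - 1) * s) 1 = s := by
          rw [min_eq_left]
          · ring
          · have := hs.2
            linarith
        simp only [this]
        exact hPk s hs u hu
    · constructor
      · refine hP.1.comp (by fun_prop) ?_
        rintro ⟨r, s, u⟩ ⟨hr, hs, hu⟩
        exact ⟨hmem r hr s hs, bd_sub n hu⟩
      · rintro ⟨r, s, u⟩ ⟨hr, hs, hu⟩
        exact hP.2 ⟨hmem r hr s hs, bd_sub n hu⟩
    · intro s hs u hu
      simp only
      rcases le_total s (1 / 2) with h | h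
      · rw [cat_lo P R s u h]
        have : min ((2 - 0) * s) 1 = 2 * s := by
          rw [min_eq_left]
          · ring
          · linarith
        rw [this]
      · rw [cat_hi P R hPR s u (bd_sub n hu) h]
        have : min ((2 - 0) * s) 1 = 1 := by
          rw [min_eq_right]
          linarith
        rw [this, hPk 1 ho u hu, hRk (2 * s - 1) ⟨by linarith, by have := hs.2; linarith⟩ u hu]
    · intro r hr u hu
      simp only
      constructor
      · rw [h0 u (bd_sub n hu), mul_zero, min_eq_left zero_le_one]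
      · have : min ((2 - r) * 1) 1 = 1 := by
          rw [min_eq_right]
          have := hr.2
          linarith
        rw [this, h1 u (bd_sub n hu), hPk 1 ho u hu, hRk 1 ho u hu]
  · intro hRk
    have hmem : ∀ r ∈ II, ∀ s ∈ II, (1 - r) * (1 - |2 * s - 1|) ∈ II := by
      intro r hr s hs
      have hr0 := hr.1
      have hr1 := hr.2
      have hs0 := hs.1
      have hs1 := hs.2
      have ha : |2 * s - 1| ≤ 1 := abs_le.2 ⟨by linarith, by linarith⟩
      have hb : 0 ≤ |2 * s - 1| := abs_nonneg _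
      exact ⟨mul_nonneg (by linarith) (by linarith), by nlinarith⟩
    have hQ := hBHF F Y n (cat P R)
      (fun q => P ((1 - q.1) * (1 - |2 * q.2.1 - 1|), q.2.2)) hM ?_ ?_ ?_
    · obtain ⟨Φ', hΦ1, hΦ2, hΦ3⟩ := hQ
      refine ⟨Φ', hΦ1, ?_, ?_, ?_⟩
      · intro u hu
        rw [(hΦ2 u hu).1, h0 u hu]
      · intro u hu
        rw [(hΦ2 u hu).2, h1 u hu]
      · intro s hs u hu
        rw [hΦ3 s hs u hu]
        simp only [sub_self, zero_mul]
        exact hPk 0 hz u hu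
    · constructor
      · refine hP.1.comp (by fun_prop) ?_
        rintro ⟨r, s, u⟩ ⟨hr, hs, hu⟩
        exact ⟨hmem r hr s hs, bd_sub n hu⟩
      · rintro ⟨r, s, u⟩ ⟨hr, hs, hu⟩
        exact hP.2 ⟨hmem r hr s hs, bd_sub n hu⟩
    · intro s hs u hu
      simp only
      rcases le_total s (1 / 2) with h | h
      · rw [cat_lo P R s u h]
        have : (1 - 0) * (1 - |2 * s - 1|) = 2 * s := by
          rw [abs_of_nonpos (by linarith)]
          ring
        rw [this]
      · rw [cat_hi P R hPR s u (bd_sub n hu) h]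
        have hs1 := hs.2
        have : (1 - 0) * (1 - |2 * s - 1|) = 1 - (2 * s - 1) := by
          rw [abs_of_nonneg (by linarith)]
          ring
        rw [this, hPk _ ⟨by linarith, by linarith⟩ u hu,
          hRk (2 * s - 1) ⟨by linarith, by linarith⟩ u hu]
    · intro r hr u hu
      simp only
      constructor
      · have : (1 - r) * (1 - |2 * (0 : ℝ) - 1|) = 0 := by
          norm_num
        rw [this, h0 u (bd_sub n hu)]
      · have : (1 - r) * (1 - |2 * (1 : ℝ) - 1|) = 0 := by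
          norm_num
        rw [this, h1 u (bd_sub n hu), hPk 0 hz u hu, hRk 1 ho u hu, sub_self]

end Pool.Agent.Helper78.FX
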