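import Pool.Agent.Helper9.FX.StP

set_option autoImplicit false

namespace Pool.Agent.Helper78.FX

open Pool.Agent.Helper9.FX Complex
open Pool.Agent.Helper72.FX (cc nu NN W1 W0 LL gg)

/-- the matrix `1 + m T(p,q)` -/
private noncomputable def TT (m p q a b t : ℂ) : Matrix (Fin 2) (Fin 2) ℂ :=
  !![1 + m * (p * q * (1 + t * b) + p ^ 2 * (t * a) / 4 + q ^ 2 * a),
    m * (-(p * q * a) - p ^ 2 * (2 + t * b) / 4 - q ^ 2 * b);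
    m * (p * q * (t * a) + p ^ 2 * (t ^ 2 * b) / 4 + q ^ 2 * (2 + t * b)),
    1 + m * (-(p * q * (1 + t * b)) - p ^ 2 * (t * a) / 4 - q ^ 2 * a)]

private theorem cc_eq (z : ℂ) : cc ℂ z = z := rfl

private theorem LL_eq (m p q a b t : ℂ) (h : nu a b t = 0) : LL m p q a b t = TT m p q a b t := by
  unfold nu at h
  ext i j
  fin_cases i <;> fin_cases j
  · simp [LL, NN, W1, W0, TT, cc_eq, Matrix.mul_apply, Fin.sum_univ_two]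
    linear_combination ((-1/4) * m ^ 2 * q ^ 4 * a ^ 2 * t + (-1/4) * m ^ 2 * p * q ^ 3 * a * t
         + (-1/4) * m ^ 2 * p * q ^ 3 * a * b * t ^ 2
         + (-1/8) * m ^ 2 * p ^ 2 * q ^ 2 * b * t ^ 2
         + (-1/16) * m ^ 2 * p ^ 2 * q ^ 2 * b ^ 2 * t ^ 3
         + (1/16) * m ^ 2 * p ^ 2 * q ^ 2 * a ^ 2 * t ^ 2
         + (1/16) * m ^ 2 * p ^ 3 * q * a * t ^ 2 + (1/16) * m ^ 2 * p ^ 3 * q * a * b * t ^ 3
         + (1/32) * m ^ 2 * p ^ 4 * b * t ^ 3 + (1/64) * m ^ 2 * p ^ 4 * b ^ 2 * t ^ 4) * h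
  · simp [LL, NN, W1, W0, TT, cc_eq, Matrix.mul_apply, Fin.sum_univ_two]
    linear_combination ((1/2) * m * q ^ 2 + (-1/8) * m * p ^ 2 * t + (1/4) * m ^ 2 * q ^ 4 * a * b * t
         + (1/4) * m ^ 2 * p * q ^ 3 * b * t + (1/8) * m ^ 2 * p * q ^ 3 * b ^ 2 * t ^ 2
         + (1/8) * m ^ 2 * p * q ^ 3 * a ^ 2 * t + (1/8) * m ^ 2 * p ^ 2 * q ^ 2 * a * t
         + (-1/16) * m ^ 2 * p ^ 3 * q * b * t ^ 2 + (-1/32) * m ^ 2 * p ^ 3 * q * b ^ 2 * t ^ 3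
         + (-1/32) * m ^ 2 * p ^ 3 * q * a ^ 2 * t ^ 2 + (-1/32) * m ^ 2 * p ^ 4 * a * t ^ 2
         + (-1/64) * m ^ 2 * p ^ 4 * a * b * t ^ 3) * h
  · simp [LL, NN, W1, W0, TT, cc_eq, Matrix.mul_apply, Fin.sum_univ_two]
    linear_combination ((1/2) * m * q ^ 2 * t + (-1/8) * m * p ^ 2 * t ^ 2 + (-1/2) * m ^ 2 * q ^ 4 * a * t
         + (-1/4) * m ^ 2 * q ^ 4 * a * b * t ^ 2 + (-1/4) * m ^ 2 * p * q ^ 3 * b * t ^ 2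
         + (-1/8) * m ^ 2 * p * q ^ 3 * b ^ 2 * t ^ 3
         + (-1/8) * m ^ 2 * p * q ^ 3 * a ^ 2 * t ^ 2
         + (1/8) * m ^ 2 * p ^ 2 * q ^ 2 * a * t ^ 2 + (1/16) * m ^ 2 * p ^ 3 * q * b * t ^ 3
         + (1/32) * m ^ 2 * p ^ 3 * q * b ^ 2 * t ^ 4
         + (1/32) * m ^ 2 * p ^ 3 * q * a ^ 2 * t ^ 3 + (1/64) * m ^ 2 * p ^ 4 * a * b * t ^ 4) * h
  · simp [LL, NN, W1, W0, TT, cc_eq, Matrix.mul_apply, Fin.sum_univ_two]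
    linear_combination ((1/2) * m ^ 2 * q ^ 4 * b * t + (1/4) * m ^ 2 * q ^ 4 * b ^ 2 * t ^ 2
         + (1/4) * m ^ 2 * p * q ^ 3 * a * t + (1/4) * m ^ 2 * p * q ^ 3 * a * b * t ^ 2
         + (-1/8) * m ^ 2 * p ^ 2 * q ^ 2 * b * t ^ 2
         + (-1/16) * m ^ 2 * p ^ 2 * q ^ 2 * b ^ 2 * t ^ 3
         + (1/16) * m ^ 2 * p ^ 2 * q ^ 2 * a ^ 2 * t ^ 2
         + (-1/16) * m ^ 2 * p ^ 3 * q * a * t ^ 2 + (-1/16) * m ^ 2 * p ^ 3 * q * a * b * t ^ 3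
         + (-1/64) * m ^ 2 * p ^ 4 * a ^ 2 * t ^ 3) * h

/-- **PGE**.  On `nu = 0` the family `gg` has constant coefficients in the basis `e_ij`. -/
theorem hPGE : StPGE := by
  intro u a b t h
  have hI : I ^ 2 + 1 = 0 := by
    rw [I_sq]
    ring
  unfold gg
  rw [LL_eq _ _ _ _ _ _ h, LL_eq _ _ _ _ _ _ h]
  unfold nu at h
  ext i j
  fin_cases i <;> fin_cases j
  · simp [TT, gk, e11, e12, e21, e22, al, be, cc_eq, Matrix.mul_apply, Fin.sum_univ_two, -I_sq, -I_mul_I]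
    linear_combination ((-1) * u ^ 2 * t + (-1) * u ^ 2 * I + (1/16) * u ^ 2 * I * t ^ 2) * h +
      ((1) * u * a + (1) * u ^ 2 + (2) * u ^ 2 * b * t + (1) * u ^ 2 * b ^ 2 * t ^ 2
         + (-1) * u ^ 2 * a + (1/4) * u ^ 2 * a * t + (-1) * u ^ 2 * a ^ 2 * t + (1) * u ^ 2 * I
         + (2) * u ^ 2 * I * b + (1) * u ^ 2 * I * b * t + (1) * u ^ 2 * I * b ^ 2 * t
         + (1/4) * u ^ 2 * I * b ^ 2 * t ^ 2 + (-1) * u ^ 2 * I * a + (-1) * u ^ 2 * I * a ^ 2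
         + (-1/4) * u ^ 2 * I * a ^ 2 * t) * hI
  · simp [TT, gk, e11, e12, e21, e22, al, be, cc_eq, Matrix.mul_apply, Fin.sum_univ_two, -I_sq, -I_mul_I]
    linear_combination ((1) * u ^ 2 + (1/4) * u ^ 2 * t + (1) * u ^ 2 * I + (-1/4) * u ^ 2 * I * t) * h +
      ((-1) * u * b + (-1/2) * u ^ 2 + (-1) * u ^ 2 * b + (-3/4) * u ^ 2 * b * t
         + (-1) * u ^ 2 * b ^ 2 * t + (-1/4) * u ^ 2 * b ^ 2 * t ^ 2 + (1) * u ^ 2 * a ^ 2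
         + (1/4) * u ^ 2 * a ^ 2 * t + (-1) * u ^ 2 * I * b + (-1) * u ^ 2 * I * b ^ 2 * t
         + (-1/2) * u ^ 2 * I * a + (1) * u ^ 2 * I * a ^ 2) * hI
  · simp [TT, gk, e11, e12, e21, e22, al, be, cc_eq, Matrix.mul_apply, Fin.sum_univ_two, -I_sq, -I_mul_I]
    linear_combination ((1) * u ^ 2 * t + (1/4) * u ^ 2 * t ^ 2 + (1) * u ^ 2 * I * t
         + (-1/4) * u ^ 2 * I * t ^ 2) * h +
      ((2) * u + (1) * u * b * t + (-2) * u ^ 2 + (-3) * u ^ 2 * b * t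
         + (-1/4) * u ^ 2 * b * t ^ 2 + (-1) * u ^ 2 * b ^ 2 * t ^ 2
         + (-1/4) * u ^ 2 * b ^ 2 * t ^ 3 + (1) * u ^ 2 * a ^ 2 * t
         + (1/4) * u ^ 2 * a ^ 2 * t ^ 2 + (-2) * u ^ 2 * I + (-3) * u ^ 2 * I * b * t
         + (-1) * u ^ 2 * I * b ^ 2 * t ^ 2 + (1/2) * u ^ 2 * I * a * t
         + (1) * u ^ 2 * I * a ^ 2 * t) * hI
  · simp [TT, gk, e11, e12, e21, e22, al, be, cc_eq, Matrix.mul_apply, Fin.sum_univ_two, -I_sq, -I_mul_I]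
    linear_combination ((-1) * u ^ 2 * t + (-1) * u ^ 2 * I + (1/16) * u ^ 2 * I * t ^ 2) * h +
      ((-1) * u * a + (1) * u ^ 2 + (2) * u ^ 2 * b * t + (1) * u ^ 2 * b ^ 2 * t ^ 2
         + (1) * u ^ 2 * a + (-1/4) * u ^ 2 * a * t + (-1) * u ^ 2 * a ^ 2 * t
         + (2) * u ^ 2 * I * b + (1) * u ^ 2 * I * b ^ 2 * t + (1/4) * u ^ 2 * I * b ^ 2 * t ^ 2
         + (1) * u ^ 2 * I * a + (-1) * u ^ 2 * I * a ^ 2 + (-1/4) * u ^ 2 * I * a ^ 2 * t) * hI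

end Pool.Agent.Helper78.FX
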