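import Pool.Agent.Helper87.FX.StC

set_option autoImplicit false

namespace Pool.Agent.Helper78.FX

open Pool.Agent.Helper87.FX Set Topology
open scoped ContDiff

section

variable {n : ℕ}

private theorem sm_mv (j : Fin n) :
    ContDiff ℝ ∞ (fun q : (Fin n → ℂ) × ℂ => mv q.1 j q.2) := by
  unfold mv
  exact contDiff_fst.add
    ((ContinuousLinearMap.single ℝ (fun _ : Fin n => ℂ) j).contDiff.comp contDiff_snd)

private theorem mv_zero (z : Fin n → ℂ) (j : Fin n) : mv z j 0 = z := by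
  unfold mv
  rw [Pi.single_zero, add_zero]

private theorem mv_mv (z : Fin n → ℂ) (j : Fin n) (w : ℂ) : mv (mv z j w) j (-w) = z := by
  unfold mv
  rw [add_assoc, ← Pi.single_add, add_neg_cancel, Pi.single_zero, add_zero]

private theorem vel2 (g : ℂ → ℂ) (hg : ContDiff ℝ ∞ g) (V U : ℂ) :
    HasFDerivAt (fun c : ℂ => V + c * g (c * U))
      (g 0 • ContinuousLinearMap.id ℝ ℂ) 0 := by
  have h1 : HasFDerivAt (fun c : ℂ => c) (ContinuousLinearMap.id ℝ ℂ) 0 := hasFDerivAt_id 0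
  have h2 : ContDiff ℝ ∞ (fun c : ℂ => g (c * U)) := hg.comp (contDiff_id.mul contDiff_const)
  have h3 : HasFDerivAt (fun c : ℂ => g (c * U)) (fderiv ℝ (fun c : ℂ => g (c * U)) 0) 0 :=
    (h2.differentiable (by simp) 0).hasFDerivAt
  have h4 := (h1.mul h3).const_add V
  refine h4.congr_fderiv ?_
  simp

private theorem vel3 (z : Fin n → ℂ) (j : Fin n) (U : ℂ) :
    HasFDerivAt (fun c : ℂ => mv z j (c * U))
      ((ContinuousLinearMap.single ℝ (fun _ : Fin n => ℂ) j).comp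
        (U • ContinuousLinearMap.id ℝ ℂ)) 0 := by
  have h1 : HasFDerivAt (fun c : ℂ => c) (ContinuousLinearMap.id ℝ ℂ) 0 := hasFDerivAt_id 0
  have h2 : HasFDerivAt (fun c : ℂ => c * U) (U • ContinuousLinearMap.id ℝ ℂ) 0 := h1.mul_const U
  have h3 := ((ContinuousLinearMap.single ℝ (fun _ : Fin n => ℂ) j).hasFDerivAt
    (x := (fun c : ℂ => c * U) 0)).comp 0 h2
  unfold mv
  exact h3.const_add z

/-- **FLO**.  The flows `El`, `Er` and their velocities. -/
theorem hFLO : StFLO := by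
  intro n F H hH j
  refine ⟨⟨?_, ?_, ?_, ?_, ?_⟩, ⟨?_, ?_, ?_, ?_, ?_⟩⟩
  · unfold El
    refine contDiff_snd.fst.prodMk ((contDiff_snd.snd.fst.add (contDiff_fst.mul ?_)).prodMk ?_)
    · exact (hH.sm j).comp (g := fun q : (Fin n → ℂ) × ℂ => H j q.1 q.2)
        (f := fun q : ℂ × AV n => (q.2.2.2, q.1 * q.2.1)) (by fun_prop)
    · exact (sm_mv j).comp (f := fun q : ℂ × AV n => (q.2.2.2, q.1 * q.2.1)) (by fun_prop)
  · rintro ⟨U, V, z⟩
    simp only [El, zero_mul, mv_zero, add_zero]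
  · rintro c ⟨U, V, z⟩
    simp only [El, neg_mul, mv_mv, hH.sym]
    rw [add_neg_cancel_right]
  · rintro c ⟨U, V, z⟩
    simp only [El, Pq, hH.eq]
    ring
  · rintro ⟨U, V, z⟩ c
    have h1 : HasFDerivAt (fun _ : ℂ => U) (0 : ℂ →L[ℝ] ℂ) 0 := hasFDerivAt_const U 0
    have h2 := vel2 (fun w => H j z w)
      ((hH.sm j).comp (g := fun q : (Fin n → ℂ) × ℂ => H j q.1 q.2)
        (f := fun w : ℂ => (z, w)) (by fun_prop)) V U
    have h3 := vel3 z j U
    have h4 := h1.prodMk (h2.prodMk h3)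
    have h5 : vel (El H j) (U, V, z) = _ := h4.fderiv
    rw [h5]
    simp [hH.zero, mul_comm]
  · unfold Er
    refine (contDiff_snd.fst.add (contDiff_fst.mul ?_)).prodMk (contDiff_snd.snd.fst.prodMk ?_)
    · exact (hH.sm j).comp (g := fun q : (Fin n → ℂ) × ℂ => H j q.1 q.2)
        (f := fun q : ℂ × AV n => (q.2.2.2, q.1 * q.2.2.1)) (by fun_prop)
    · exact (sm_mv j).comp (f := fun q : ℂ × AV n => (q.2.2.2, q.1 * q.2.2.1)) (by fun_prop)
  · rintro ⟨U, V, z⟩
    simp only [Er, zero_mul, mv_zero, add_zero]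
  · rintro c ⟨U, V, z⟩
    simp only [Er, neg_mul, mv_mv, hH.sym]
    rw [add_neg_cancel_right]
  · rintro c ⟨U, V, z⟩
    simp only [Er, Pq, hH.eq]
    ring
  · rintro ⟨U, V, z⟩ c
    have h1 : HasFDerivAt (fun _ : ℂ => V) (0 : ℂ →L[ℝ] ℂ) 0 := hasFDerivAt_const V 0
    have h2 := vel2 (fun w => H j z w)
      ((hH.sm j).comp (g := fun q : (Fin n → ℂ) × ℂ => H j q.1 q.2)
        (f := fun w : ℂ => (z, w)) (by fun_prop)) U V
    have h3 := vel3 z j V
    have h4 := h2.prodMk (h1.prodMk h3)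
    have h5 : vel (Er H j) (U, V, z) = _ := h4.fderiv
    rw [h5]
    simp [hH.zero, mul_comm]

end

end Pool.Agent.Helper78.FX
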